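import Pool.Agent.Helper45.PQ.StB

/-!
# Project PQ (MP_a1f43d_co), module CNT: singular points not perpendicular to a given one
-/

set_option autoImplicit false

open Module Classical
open scoped LinearAlgebra.Projectivization

namespace Pool.Agent.Helper5.PQ

open Pool.Agent.Helper45.PQ

universe u v

theorem hCNT : StCNT.{u, v} := by
  intro F _ _ V _ _ _ _ Q W R k hRW hQR hw hk
  obtain ⟨w0, hw0, hw1⟩ := hw
  -- scaled vector
  obtain ⟨w, hwW, hw⟩ : ∃ w ∈ W, QuadraticMap.polar Q R w = 1 := by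
    refine ⟨(QuadraticMap.polar Q R w0)⁻¹ • w0, W.smul_mem _ hw0, ?_⟩
    rw [QuadraticMap.polar_smul_right, smul_eq_mul, inv_mul_cancel₀ hw1]
  have hRR : QuadraticMap.polar Q R R = 0 := by rw [polar_self_two, hQR, mul_zero]
  -- dimension
  have hnle : ¬ W ≤ LinearMap.ker (QuadraticMap.polarBilin Q R) := fun h => hw1 (h hw0)
  have hd := Pool.Agent.Helper53.PB.Polar.finrank_inf_ker W (QuadraticMap.polarBilin Q R) hnle
  have hW' : Nat.card (W ⊓ prp Q R : Submodule F V) = Nat.card F ^ (k + 1) := by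
    rw [Module.natCard_eq_pow_finrank (K := F)]
    congr 1
    have : finrank F (W ⊓ prp Q R : Submodule F V) =
      finrank F (W ⊓ LinearMap.ker (QuadraticMap.polarBilin Q R) : Submodule F V) := rfl
    omega
  -- the affine hyperplane
  have hA : Nat.card {x : V // x ∈ W ∧ QuadraticMap.polar Q R x = 1} = Nat.card F ^ (k + 1) := by
    rw [← hW']
    refine Nat.card_congr ⟨fun x => ⟨x.1 - w, W.sub_mem x.2.1 hwW, ?_⟩,
      fun y => ⟨y.1 + w, W.add_mem y.2.1 hwW, ?_⟩, ?_, ?_⟩
    · show QuadraticMap.polar Q R (x.1 - w) = 0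
      rw [sub_eq_add_neg, QuadraticMap.polar_add_right, QuadraticMap.polar_neg_right, x.2.2, hw]
      ring
    · have h := y.2.2
      rw [SetLike.mem_coe, mem_prp] at h
      rw [QuadraticMap.polar_add_right, h, hw, zero_add]
    · intro x
      apply Subtype.ext
      exact sub_add_cancel _ _
    · intro x
      apply Subtype.ext
      exact add_sub_cancel_right _ _
  -- value of `Q` on a coset
  have hQ : ∀ (x : V) (t : F), QuadraticMap.polar Q R x = 1 → Q (x + t • R) = Q x + t := by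
    intro x t hx
    rw [QuadraticMap.map_add Q, QuadraticMap.map_smul, hQR, QuadraticMap.polar_smul_right,
      QuadraticMap.polar_comm, hx]
    simp
  have hP : ∀ (x : V) (t : F), QuadraticMap.polar Q R x = 1 →
      QuadraticMap.polar Q R (x + t • R) = 1 := by
    intro x t hx
    rw [QuadraticMap.polar_add_right, QuadraticMap.polar_smul_right, hRR, hx]
    simp
  -- singular vectors
  have hB : Nat.card {x : V // (x ∈ W ∧ QuadraticMap.polar Q R x = 1) ∧ Q x = 0} * Nat.card F =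
      Nat.card F ^ (k + 1) := by
    rw [← hA, ← Nat.card_prod]
    refine Nat.card_congr ⟨fun x => ⟨x.1.1 + x.2 • R,
        W.add_mem x.1.2.1.1 (W.smul_mem _ hRW), hP _ _ x.1.2.1.2⟩,
      fun y => (⟨y.1 + (-(Q y.1)) • R, ⟨W.add_mem y.2.1 (W.smul_mem _ hRW), hP _ _ y.2.2⟩, ?_⟩,
        Q y.1), ?_, ?_⟩
    · rw [hQ _ _ y.2.2]
      ring
    · rintro ⟨⟨x, ⟨hx1, hx2⟩, hx3⟩, t⟩
      have h1 : Q (x + t • R) = t := by rw [hQ _ _ hx2, hx3, zero_add]
      apply Prod.ext
      · apply Subtype.ext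
        show x + t • R + (-(Q (x + t • R))) • R = x
        rw [h1]
        module
      · exact h1
    · rintro ⟨y, hy1, hy2⟩
      apply Subtype.ext
      show y + (-(Q y)) • R + (Q y) • R = y
      module
  have hq : 0 < Nat.card F := Nat.card_pos
  have hB' : Nat.card {x : V // (x ∈ W ∧ QuadraticMap.polar Q R x = 1) ∧ Q x = 0} =
      Nat.card F ^ k := by
    rw [pow_succ] at hB
    exact Nat.eq_of_mul_eq_mul_right hq hB
  -- points and vectors
  rw [← hB', ← Nat.card_eq_finsetCard]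
  have hmem : ∀ y : ℙ F V, y ∈ (sp Q W).filter (fun y => QuadraticMap.polar Q R y.rep ≠ 0) ↔
      (y.rep ∈ W ∧ Q y.rep = 0) ∧ QuadraticMap.polar Q R y.rep ≠ 0 := by
    intro y
    rw [Finset.mem_filter, mem_sp]
  refine Nat.card_eq_of_bijective (fun y => ⟨(QuadraticMap.polar Q R y.1.rep)⁻¹ • y.1.rep, ?_⟩) ⟨?_, ?_⟩
  · obtain ⟨⟨h1, h2⟩, h3⟩ := (hmem y.1).1 y.2
    refine ⟨⟨W.smul_mem _ h1, ?_⟩, ?_⟩
    · rw [QuadraticMap.polar_smul_right, smul_eq_mul, inv_mul_cancel₀ h3]
    · rw [QuadraticMap.map_smul, h2, smul_zero]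
  · rintro ⟨y, hy⟩ ⟨z, hz⟩ hyz
    obtain ⟨⟨h1, h2⟩, h3⟩ := (hmem y).1 hy
    obtain ⟨⟨h1', h2'⟩, h3'⟩ := (hmem z).1 hz
    have h := congrArg Subtype.val hyz
    simp only at h
    apply Subtype.ext
    show y = z
    apply Pool.Agent.Helper53.PB.eq_of_rep_mem_span
    rw [Submodule.mem_span_singleton]
    refine ⟨QuadraticMap.polar Q R y.rep * (QuadraticMap.polar Q R z.rep)⁻¹, ?_⟩
    rw [mul_smul, ← h, smul_smul, mul_inv_cancel₀ h3, one_smul]
  · rintro ⟨x, ⟨hx1, hx2⟩, hx3⟩
    have hx0 : x ≠ 0 := by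
      rintro rfl
      rw [QuadraticMap.polar_zero_right] at hx2
      exact zero_ne_one hx2
    obtain ⟨a, ha⟩ := Projectivization.exists_smul_eq_mk_rep F x hx0
    have ha' : (Projectivization.mk F x hx0).rep = (a : F) • x := by rw [← ha, Units.smul_def]
    have hpol : QuadraticMap.polar Q R (Projectivization.mk F x hx0).rep = (a : F) := by
      rw [ha', QuadraticMap.polar_smul_right, hx2, smul_eq_mul, mul_one]
    refine ⟨⟨Projectivization.mk F x hx0, (hmem _).2 ⟨⟨?_, ?_⟩, ?_⟩⟩, ?_⟩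
    · rw [ha']
      exact W.smul_mem _ hx1
    · rw [ha', QuadraticMap.map_smul, hx3, smul_zero]
    · rw [hpol]
      exact a.ne_zero
    · apply Subtype.ext
      show (QuadraticMap.polar Q R (Projectivization.mk F x hx0).rep)⁻¹ •
        (Projectivization.mk F x hx0).rep = x
      rw [hpol, ha', smul_smul, inv_mul_cancel₀ a.ne_zero, one_smul]

end Pool.Agent.Helper5.PQ
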